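import Mathlib

set_option autoImplicit false

/-!
The Poincaré–Miranda theorem for open partitions of the cube, proved with the change of
variables formula.
-/

namespace Pool.Agent.Misc72

open Set Topology MeasureTheory Polynomial

/-- Evaluation at one of a polynomial of bounded degree from small nodes. -/
theorem poly_interp (n : ℕ) (τ0 : ℝ) (h0 : 0 < τ0) :
    ∃ (v c : Fin (n + 1) → ℝ), (∀ j, 0 < v j ∧ v j < τ0) ∧ ∑ j, c j = 1 ∧
      ∀ p : ℝ[X], p.natDegree ≤ n → p.eval 1 = ∑ j, c j * p.eval (v j) := by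
  let v : Fin (n + 1) → ℝ := fun j => τ0 * ((j.1 : ℝ) + 1) / (n + 2)
  have hn : (0 : ℝ) < (n : ℝ) + 2 := by positivity
  have hinj : Function.Injective v := by
    intro i j hij
    simp only [v] at hij
    rw [div_left_inj' hn.ne', mul_right_inj' h0.ne', add_left_inj] at hij
    exact Fin.ext (by exact_mod_cast hij)
  have hinj' : Set.InjOn v (Finset.univ : Finset (Fin (n + 1))) := hinj.injOn
  refine ⟨v, fun j => (Lagrange.basis Finset.univ v j).eval 1, ?_, ?_, ?_⟩
  · intro j
    simp only [v]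
    constructor
    · positivity
    · rw [div_lt_iff₀ hn]
      have : (j.1 : ℝ) + 1 < (n : ℝ) + 2 := by
        have : (j.1 : ℝ) < (n : ℝ) + 1 := by exact_mod_cast j.2
        linarith
      exact mul_lt_mul_of_pos_left this h0
  · rw [← Polynomial.eval_finsetSum, Lagrange.sum_basis hinj' Finset.univ_nonempty,
      Polynomial.eval_one]
  · intro p hp
    have hdeg : p.degree < ((Finset.univ : Finset (Fin (n + 1))).card : WithBot ℕ) := by
      rw [Finset.card_univ, Fintype.card_fin]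
      refine lt_of_le_of_lt Polynomial.degree_le_natDegree ?_
      exact_mod_cast Nat.lt_succ_of_le hp
    conv_lhs => rw [Lagrange.eq_interpolate hinj' hdeg]
    rw [Lagrange.interpolate_apply, Polynomial.eval_finsetSum]
    refine Finset.sum_congr rfl fun j _ => ?_
    rw [Polynomial.eval_mul, Polynomial.eval_C, mul_comm]

variable {ι : Type} [Fintype ι] [DecidableEq ι]

/-- The polynomial `det (1 + X N)`. -/
noncomputable def dpoly (N : Matrix ι ι ℝ) : ℝ[X] :=
  Matrix.det ((X : ℝ[X]) • N.map C + (1 : Matrix ι ι ℝ).map C)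

theorem natDegree_dpoly (N : Matrix ι ι ℝ) : (dpoly N).natDegree ≤ Fintype.card ι :=
  Polynomial.natDegree_det_X_add_C_le N 1

theorem eval_dpoly (N : Matrix ι ι ℝ) (τ : ℝ) : (dpoly N).eval τ = (1 + τ • N).det := by
  unfold dpoly
  rw [← Polynomial.coe_evalRingHom, RingHom.map_det]
  congr 1
  ext i j
  simp only [RingHom.mapMatrix_apply, Matrix.map_apply, Matrix.add_apply, Matrix.smul_apply,
    coe_evalRingHom, eval_add, smul_eq_mul, eval_mul, eval_X, eval_C]
  ring

/-- The key contradiction in the smooth case. -/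
theorem smooth_case [Nonempty ι] (g : (ι → ℝ) → (ι → ℝ)) (hg : ContDiff ℝ 1 g)
    (h01 : ∀ x i, g x i ∈ Icc (0 : ℝ) 1)
    (hl : ∀ x ∈ Icc (0 : ι → ℝ) 1, ∀ i, x i = 0 → g x i = 0)
    (hr : ∀ x ∈ Icc (0 : ι → ℝ) 1, ∀ i, x i = 1 → g x i = 1)
    (hsing : ∀ x ∈ Icc (0 : ι → ℝ) 1, (fderiv ℝ g x).det = 0) : False := by
  let Q : Set (ι → ℝ) := Icc 0 1
  let U : Set (ι → ℝ) := Set.pi univ (fun _ => Ioo (0 : ℝ) 1)
  have hQc : IsCompact Q := isCompact_Icc
  have hUo : IsOpen U := isOpen_set_pi finite_univ fun i _ => isOpen_Ioo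
  have hUQ : U ⊆ Q := by
    intro x hx
    have hx' : ∀ i, x i ∈ Ioo (0 : ℝ) 1 := fun i => hx i (mem_univ i)
    exact ⟨fun i => (hx' i).1.le, fun i => (hx' i).2.le⟩
  have hUpre : IsPreconnected U :=
    (convex_pi fun i _ => convex_Ioo (0 : ℝ) 1).isPreconnected
  let h : (ι → ℝ) → (ι → ℝ) := fun x => g x - x
  have hh : ContDiff ℝ 1 h := hg.sub contDiff_id
  obtain ⟨L, hL⟩ := (hh.contDiffOn (s := Q)).exists_lipschitzOnWith one_ne_zero
    (convex_Icc 0 1) hQc
  let f : ℝ → (ι → ℝ) → (ι → ℝ) := fun τ x => x + τ • h x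
  let f' : ℝ → (ι → ℝ) → ((ι → ℝ) →L[ℝ] (ι → ℝ)) := fun τ x =>
    ContinuousLinearMap.id ℝ (ι → ℝ) + τ • (fderiv ℝ g x - ContinuousLinearMap.id ℝ (ι → ℝ))
  have hf' : ∀ τ x, HasFDerivAt (f τ) (f' τ x) x := by
    intro τ x
    have h1 : HasFDerivAt g (fderiv ℝ g x) x :=
      (hg.differentiable one_ne_zero x).hasFDerivAt
    exact (hasFDerivAt_id x).add ((h1.sub (hasFDerivAt_id x)).const_smul τ)
  let N : (ι → ℝ) → Matrix ι ι ℝ := fun x =>
    LinearMap.toMatrix' ((fderiv ℝ g x - ContinuousLinearMap.id ℝ (ι → ℝ) :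
      (ι → ℝ) →L[ℝ] (ι → ℝ)) : (ι → ℝ) →ₗ[ℝ] (ι → ℝ))
  have hdet : ∀ τ x, (f' τ x).det = (dpoly (N x)).eval τ := by
    intro τ x
    rw [eval_dpoly]
    have : (f' τ x).det = LinearMap.det ((f' τ x : (ι → ℝ) →L[ℝ] (ι → ℝ)) :
      (ι → ℝ) →ₗ[ℝ] (ι → ℝ)) := rfl
    rw [this, ← LinearMap.det_toMatrix']
    congr 1
    simp only [f', N]
    rw [ContinuousLinearMap.toLinearMap_add, ContinuousLinearMap.toLinearMap_smul, map_add, map_smul]
    congr 1
    exact LinearMap.toMatrix'_id
  have hNcont : Continuous N := by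
    have h1 : Continuous (fderiv ℝ g) := hg.continuous_fderiv one_ne_zero
    refine continuous_matrix fun i j => ?_
    simp only [N, LinearMap.toMatrix'_apply]
    have h2 : Continuous fun x => (fderiv ℝ g x - ContinuousLinearMap.id ℝ (ι → ℝ))
        (Pi.single j 1) :=
      (h1.sub continuous_const).clm_apply continuous_const
    exact (continuous_apply i).comp h2
  have hdcont : Continuous fun p : ℝ × (ι → ℝ) => (1 + p.1 • N p.2).det := by
    apply Continuous.matrix_det
    exact continuous_const.add (continuous_fst.smul (hNcont.comp continuous_snd))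
  -- positivity of the determinant for small τ
  have hpos : ∀ᶠ τ in 𝓝 (0 : ℝ), ∀ x ∈ Q, 0 < (1 + τ • N x).det := by
    apply hQc.eventually_forall_of_forall_eventually
    intro x _
    have h1 : Filter.Tendsto (fun p : ℝ × (ι → ℝ) => (1 + p.1 • N p.2).det) (𝓝 (0, x))
        (𝓝 ((1 + (0 : ℝ) • N x).det)) := hdcont.tendsto (0, x)
    have h2 : (1 + (0 : ℝ) • N x).det = 1 := by simp
    rw [h2] at h1
    exact h1.eventually (lt_mem_nhds one_pos)
  obtain ⟨δ, hδ, hδ2⟩ := Metric.eventually_nhds_iff.mp hpos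
  let τ0 : ℝ := min δ (min 1 (1 / ((L : ℝ) + 1)))
  have hL0 : (0 : ℝ) ≤ L := L.2
  have hτ0 : 0 < τ0 := lt_min hδ (lt_min one_pos (by positivity))
  -- the volume identity
  have hvol : ∀ τ, 0 < τ → τ < τ0 → ∫ x in U, (dpoly (N x)).eval τ = 1 := by
    intro τ hτ hτ1
    have hτδ : τ < δ := hτ1.trans_le (min_le_left _ _)
    have hτ1' : τ < 1 := hτ1.trans_le ((min_le_right _ _).trans (min_le_left _ _))
    have hτL : τ * (L : ℝ) < 1 := by
      have h1 : τ < 1 / ((L : ℝ) + 1) := hτ1.trans_le ((min_le_right _ _).trans (min_le_right _ _))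
      rw [lt_div_iff₀ (by positivity)] at h1
      nlinarith
    have hlip : ∀ x ∈ Q, ∀ y ∈ Q, ‖h x - h y‖ ≤ L * ‖x - y‖ := fun x hx y hy => by
      have := hL.dist_le_mul x hx y hy
      rwa [dist_eq_norm, dist_eq_norm] at this
    have hinj : InjOn (f τ) U := by
      intro x hx y hy hxy
      have h1 : x - y = - (τ • (h x - h y)) := by
        have : x + τ • h x = y + τ • h y := hxy
        rw [smul_sub]
        have h2 : x - y = τ • h y - τ • h x := by
          rw [sub_eq_sub_iff_add_eq_add, this, add_comm]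
        rw [h2]; abel
      have h2 : ‖x - y‖ ≤ τ * L * ‖x - y‖ := by
        calc ‖x - y‖ = τ * ‖h x - h y‖ := by
              rw [h1, norm_neg, norm_smul, Real.norm_of_nonneg hτ.le]
          _ ≤ τ * (L * ‖x - y‖) := mul_le_mul_of_nonneg_left (hlip x (hUQ hx) y (hUQ hy)) hτ.le
          _ = _ := by ring
      have h3 : ‖x - y‖ = 0 := by
        have h4 := norm_nonneg (x - y)
        by_contra hne
        have h5 : 0 < ‖x - y‖ := lt_of_le_of_ne h4 (Ne.symm hne)
        nlinarith
      exact sub_eq_zero.mp (norm_eq_zero.mp h3)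
    have hcoord : ∀ x i, f τ x i = (1 - τ) * x i + τ * g x i := by
      intro x i
      simp only [f, h, Pi.add_apply, Pi.smul_apply, Pi.sub_apply, smul_eq_mul]
      ring
    have himg1 : f τ '' U ⊆ U := by
      rintro _ ⟨x, hx, rfl⟩ i _
      have h1 := hx i (mem_univ i)
      have h2 := h01 x i
      rw [mem_Ioo, hcoord]
      constructor
      · nlinarith [h1.1, h2.1]
      · nlinarith [h1.2, h2.2]
    have hopen : IsOpen (f τ '' U) := by
      let c : NNReal := Real.toNNReal τ * L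
      have hcc : (c : ℝ) = τ * L := by
        simp only [c, NNReal.coe_mul, Real.coe_toNNReal τ hτ.le]
      have happ : ApproximatesLinearOn (f τ)
          ((ContinuousLinearEquiv.refl ℝ (ι → ℝ) : (ι → ℝ) ≃L[ℝ] (ι → ℝ)) :
            (ι → ℝ) →L[ℝ] (ι → ℝ)) U c := by
        intro x hx y hy
        have h1 : f τ x - f τ y - ((ContinuousLinearEquiv.refl ℝ (ι → ℝ) :
            (ι → ℝ) ≃L[ℝ] (ι → ℝ)) : (ι → ℝ) →L[ℝ] (ι → ℝ)) (x - y) = τ • (h x - h y) := by
          change x + τ • h x - (y + τ • h y) - (x - y) = τ • (h x - h y)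
          module
        rw [h1, norm_smul, Real.norm_of_nonneg hτ.le]
        calc τ * ‖h x - h y‖ ≤ τ * (L * ‖x - y‖) :=
              mul_le_mul_of_nonneg_left (hlip x (hUQ hx) y (hUQ hy)) hτ.le
          _ = _ := by rw [hcc]; ring
      apply happ.open_image
        (ContinuousLinearEquiv.refl ℝ (ι → ℝ)).toNonlinearRightInverse hUo
      right
      have h1 : (ContinuousLinearEquiv.refl ℝ (ι → ℝ)).toNonlinearRightInverse.nnnorm = 1 := by
        have : (ContinuousLinearEquiv.refl ℝ (ι → ℝ)).toNonlinearRightInverse.nnnorm =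
          ‖((ContinuousLinearEquiv.refl ℝ (ι → ℝ)).symm : (ι → ℝ) →L[ℝ] (ι → ℝ))‖₊ := rfl
        rw [this]
        have h2 : ((ContinuousLinearEquiv.refl ℝ (ι → ℝ)).symm : (ι → ℝ) →L[ℝ] (ι → ℝ)) =
          ContinuousLinearMap.id ℝ (ι → ℝ) := rfl
        rw [h2]
        exact ContinuousLinearMap.nnnorm_id
      rw [h1, inv_one, ← NNReal.coe_lt_coe, hcc, NNReal.coe_one]
      exact hτL
    have hcont : Continuous (f τ) := continuous_id.add (hh.continuous.const_smul τ)
    have himg2 : U ⊆ f τ '' U := by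
      apply hUpre.subset_of_closure_inter_subset hopen
      · have hU : (fun _ => 1 / 2 : ι → ℝ) ∈ U := fun i _ => ⟨by norm_num, by norm_num⟩
        exact ⟨f τ (fun _ => 1 / 2), himg1 ⟨_, hU, rfl⟩, ⟨_, hU, rfl⟩⟩
      · rintro y ⟨hy, hyU⟩
        have h1 : y ∈ f τ '' Q := by
          have h2 : closure (f τ '' U) ⊆ f τ '' Q :=
            closure_minimal (image_mono hUQ) (hQc.image hcont).isClosed
          exact h2 hy
        obtain ⟨x, hx, rfl⟩ := h1
        refine ⟨x, ?_, rfl⟩
        intro i _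
        have hxi : x i ∈ Icc (0 : ℝ) 1 := ⟨hx.1 i, hx.2 i⟩
        have hyi := hyU i (mem_univ i)
        rw [hcoord] at hyi
        constructor
        · rcases hxi.1.eq_or_lt with h0 | h0
          · exfalso
            rw [hl x hx i h0.symm, ← h0] at hyi
            simp at hyi
          · exact h0
        · rcases hxi.2.eq_or_lt with h0 | h0
          · exfalso
            rw [hr x hx i h0, h0] at hyi
            simp at hyi
          · exact h0
    have himg : f τ '' U = U := le_antisymm himg1 himg2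
    have hUm : MeasurableSet U := hUo.measurableSet
    have hcv := lintegral_abs_det_fderiv_eq_addHaar_image (volume : Measure (ι → ℝ)) hUm
      (fun x _ => (hf' τ x).hasFDerivWithinAt) hinj
    rw [himg] at hcv
    have hvolU : (volume : Measure (ι → ℝ)) U = 1 := by
      simp only [U]
      rw [Real.volume_pi_Ioo]
      simp
    rw [hvolU] at hcv
    have hposU : ∀ x ∈ U, 0 < (dpoly (N x)).eval τ := by
      intro x hx
      rw [eval_dpoly]
      exact hδ2 (by rw [Real.dist_eq, sub_zero, abs_of_pos hτ]; exact hτδ) x (hUQ hx)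
    have hint : IntegrableOn (fun x => (dpoly (N x)).eval τ) U := by
      have h1 : Continuous fun x => (dpoly (N x)).eval τ := by
        simp_rw [eval_dpoly]
        exact hdcont.comp (continuous_const.prodMk continuous_id)
      exact (h1.continuousOn.integrableOn_compact hQc).mono_set hUQ
    have h1 := ofReal_integral_eq_lintegral_ofReal hint
      ((ae_restrict_iff' hUm).mpr (Filter.Eventually.of_forall fun x hx => (hposU x hx).le))
    have h2 : ∫⁻ x in U, ENNReal.ofReal ((dpoly (N x)).eval τ) =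
        ∫⁻ x in U, ENNReal.ofReal |(f' τ x).det| := by
      apply setLIntegral_congr_fun hUm
      intro x hx
      simp only
      rw [hdet, abs_of_pos (hposU x hx)]
    rw [h2, hcv] at h1
    have h3 : 0 ≤ ∫ x in U, (dpoly (N x)).eval τ :=
      setIntegral_nonneg hUm fun x hx => (hposU x hx).le
    have h4 := congrArg ENNReal.toReal h1
    rwa [ENNReal.toReal_ofReal h3, ENNReal.toReal_one] at h4
  -- conclusion by interpolation
  obtain ⟨v, c, hv, hc, hp⟩ := poly_interp (Fintype.card ι) τ0 hτ0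
  have hUm : MeasurableSet U := hUo.measurableSet
  have h1 : ∫ x in U, (dpoly (N x)).eval 1 = 0 := by
    have : ∀ x ∈ U, (dpoly (N x)).eval 1 = 0 := by
      intro x hx
      rw [← hdet 1 x, ← hsing x (hUQ hx)]
      simp only [f', one_smul]
      congr 1
      abel
    rw [setIntegral_congr_fun hUm this]
    simp
  have h2 : ∫ x in U, (dpoly (N x)).eval 1 = 1 := by
    have h3 : ∀ x, (dpoly (N x)).eval 1 = ∑ j, c j * (dpoly (N x)).eval (v j) := fun x =>
      hp _ (natDegree_dpoly _)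
    simp_rw [h3]
    rw [integral_finsetSum]
    · simp_rw [integral_const_mul]
      rw [← hc]
      refine Finset.sum_congr rfl fun j _ => ?_
      rw [hvol (v j) (hv j).1 (hv j).2, mul_one]
    · intro j _
      apply Integrable.const_mul
      have h4 : Continuous fun x => (dpoly (N x)).eval (v j) := by
        simp_rw [eval_dpoly]
        exact hdcont.comp (continuous_const.prodMk continuous_id)
      exact (h4.continuousOn.integrableOn_compact hQc).mono_set hUQ
  rw [h1] at h2
  exact zero_ne_one h2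

/-- Poincaré–Miranda theorem for open sides of partitions. -/
theorem poincare_miranda [Nonempty ι] (A B : ι → Set (ι → ℝ)) (hA : ∀ i, IsOpen (A i))
    (hB : ∀ i, IsOpen (B i))
    (hd : ∀ i, ∀ x ∈ Icc (0 : ι → ℝ) 1, x ∈ A i → x ∈ B i → False)
    (hl : ∀ i, ∀ x ∈ Icc (0 : ι → ℝ) 1, x i = 0 → x ∈ A i)
    (hr : ∀ i, ∀ x ∈ Icc (0 : ι → ℝ) 1, x i = 1 → x ∈ B i) :
    ∃ x ∈ Icc (0 : ι → ℝ) 1, ∀ i, x ∉ A i ∧ x ∉ B i := by
  by_contra hcon
  push Not at hcon
  let Q : Set (ι → ℝ) := Icc 0 1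
  have hQc : IsClosed Q := isClosed_Icc
  let u : ι × Bool → Set (ι → ℝ) := fun p => if p.2 then A p.1 else B p.1
  have huo : ∀ p, IsOpen (u p) := by
    rintro ⟨i, c⟩
    simp only [u]
    split_ifs
    · exact hA i
    · exact hB i
  have hQu : Q ⊆ ⋃ p, u p := by
    intro x hx
    obtain ⟨i, hi⟩ := hcon x hx
    by_cases hxA : x ∈ A i
    · exact mem_iUnion.mpr ⟨(i, true), by simpa only [u, if_true] using hxA⟩
    · exact mem_iUnion.mpr ⟨(i, false), by
        simpa only [u, Bool.false_eq_true, if_false] using hi hxA⟩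
  obtain ⟨v, hv1, hv2, hv3⟩ := exists_subset_iUnion_closed_subset hQc huo
    (fun x _ => Set.toFinite _) hQu
  let a : ι → Set (ι → ℝ) := fun i => (v (i, true) ∩ Q) ∪ (Q ∩ {x | x i = 0})
  let b : ι → Set (ι → ℝ) := fun i => (v (i, false) ∩ Q) ∪ (Q ∩ {x | x i = 1})
  have hvt : ∀ i, v (i, true) ⊆ A i := fun i => by
    simpa only [u, if_true] using hv3 (i, true)
  have hvf : ∀ i, v (i, false) ⊆ B i := fun i => by
    simpa only [u, Bool.false_eq_true, if_false] using hv3 (i, false)
  have hac : ∀ i, IsClosed (a i) := fun i =>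
    ((hv2 _).inter hQc).union (hQc.inter (isClosed_eq (continuous_apply i) continuous_const))
  have hbc : ∀ i, IsClosed (b i) := fun i =>
    ((hv2 _).inter hQc).union (hQc.inter (isClosed_eq (continuous_apply i) continuous_const))
  have hab : ∀ i, Disjoint (a i) (b i) := by
    intro i
    rw [Set.disjoint_left]
    rintro x (⟨hx1, hx2⟩ | ⟨hx1, hx2⟩) (⟨hx3, hx4⟩ | ⟨hx3, hx4⟩)
    · exact hd i x hx2 (hvt i hx1) (hvf i hx3)
    · exact hd i x hx2 (hvt i hx1) (hr i x hx3 hx4)
    · exact hd i x hx1 (hl i x hx1 hx2) (hvf i hx3)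
    · have h1 : x i = 0 := hx2
      have h2 : x i = 1 := hx4
      rw [h1] at h2
      exact zero_ne_one h2
  have hg : ∀ i, ∃ g : (ι → ℝ) → ℝ, ContDiff ℝ 1 g ∧ (∀ᶠ x in 𝓝ˢ (a i), g x = 0) ∧
      (∀ᶠ x in 𝓝ˢ (b i), g x = 1) ∧ ∀ x, g x ∈ Icc (0 : ℝ) 1 := by
    intro i
    obtain ⟨g, hg1, hg2, hg3⟩ := exists_contMDiffMap_zero_one_nhds_of_isClosed
      (modelWithCornersSelf ℝ (ι → ℝ)) (n := 1) (hac i) (hbc i) (hab i)
    exact ⟨g, g.contMDiff.contDiff, hg1, hg2, hg3⟩
  choose g hgc hg0 hg1 hg01 using hg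
  let G : (ι → ℝ) → (ι → ℝ) := fun x i => g i x
  have hGc : ContDiff ℝ 1 G := contDiff_pi.mpr hgc
  apply smooth_case G hGc (fun x i => hg01 i x)
  · intro x hx i hi
    have : x ∈ a i := Or.inr ⟨hx, hi⟩
    exact (hg0 i).self_of_nhdsSet x this
  · intro x hx i hi
    have : x ∈ b i := Or.inr ⟨hx, hi⟩
    exact (hg1 i).self_of_nhdsSet x this
  · intro x hx
    -- some coordinate is locally constant
    have hloc : ∃ i, fderiv ℝ (g i) x = 0 := by
      obtain ⟨⟨i, c⟩, hic⟩ := mem_iUnion.mp (hv1 hx)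
      refine ⟨i, ?_⟩
      cases c
      · have h1 : ∀ᶠ y in 𝓝 x, g i y = 1 := by
          have := hg1 i
          rw [eventually_nhdsSet_iff_forall] at this
          exact this x (Or.inl ⟨hic, hx⟩)
        have h2 : g i =ᶠ[𝓝 x] fun _ => (1 : ℝ) := h1
        rw [h2.fderiv_eq]
        simp
      · have h1 : ∀ᶠ y in 𝓝 x, g i y = 0 := by
          have := hg0 i
          rw [eventually_nhdsSet_iff_forall] at this
          exact this x (Or.inl ⟨hic, hx⟩)
        have h2 : g i =ᶠ[𝓝 x] fun _ => (0 : ℝ) := h1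
        rw [h2.fderiv_eq]
        simp
    obtain ⟨i, hi⟩ := hloc
    have hcomp : ∀ y, (fderiv ℝ G x y) i = 0 := by
      intro y
      have h1 : fderiv ℝ G x = ContinuousLinearMap.pi fun j => fderiv ℝ (g j) x :=
        fderiv_pi fun j => (hgc j).differentiable one_ne_zero x
      rw [h1, ContinuousLinearMap.pi_apply, hi]
      simp
    by_contra hne
    have hne' : LinearMap.det ((fderiv ℝ G x : (ι → ℝ) →L[ℝ] (ι → ℝ)) :
      (ι → ℝ) →ₗ[ℝ] (ι → ℝ)) ≠ 0 := hne
    let eqv := LinearMap.equivOfDetNeZero _ hne'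
    have h3 := eqv.surjective (Pi.single i 1)
    obtain ⟨y, hy⟩ := h3
    have h4 : eqv y = fderiv ℝ G x y := rfl
    rw [h4] at hy
    have h5 := hcomp y
    rw [hy] at h5
    simp at h5

end Pool.Agent.Misc72
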